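import Pool.Agent.Helper70.BI.HH.StHD

/-!
# Project BI, stage 7 (H), module MVF: a 2-cocycle on the complement vanishes on spheres
-/

set_option autoImplicit false

open scoped Topology unitInterval Manifold ContDiff
open Set Pool.Agent.Helper65.Barb Pool.Agent.Helper18.BI
open Pool.Agent.Helper34.S5 (zc Gc nm Off)

namespace Pool.Agent.Helper70.HH

namespace MVFaux

/-- boundary sum of a function of paths -/
def bd {X : Type} [TopologicalSpace X] {V : Type} [AddCommGroup V] (u : C(I, X) → V)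
    (S : C(I × I, X)) : V :=
  u (S.comp botm) + u (S.comp rigm) - u (S.comp lefm) - u (S.comp topm)

theorem dC_bd {X : Type} [TopologicalSpace X] {V : Type} [AddCommGroup V] (u : C(I, X) → V)
    (C : C(I × (I × I), X)) : dC (bd u) C = 0 := by
  have a1 : (C.comp (fz 0)).comp rigm = (C.comp (fx 1)).comp botm := rfl
  have a2 : (C.comp (fz 0)).comp lefm = (C.comp (fx 0)).comp botm := rfl
  have a3 : (C.comp (fz 1)).comp rigm = (C.comp (fx 1)).comp topm := rfl
  have a4 : (C.comp (fz 1)).comp lefm = (C.comp (fx 0)).comp topm := rfl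
  have b1 : (C.comp (fy 1)).comp rigm = (C.comp (fx 1)).comp rigm := rfl
  have b2 : (C.comp (fy 1)).comp lefm = (C.comp (fx 0)).comp rigm := rfl
  have b3 : (C.comp (fy 0)).comp rigm = (C.comp (fx 1)).comp lefm := rfl
  have b4 : (C.comp (fy 0)).comp lefm = (C.comp (fx 0)).comp lefm := rfl
  have c1 : (C.comp (fz 0)).comp botm = (C.comp (fy 0)).comp botm := rfl
  have c2 : (C.comp (fz 0)).comp topm = (C.comp (fy 1)).comp botm := rfl
  have c3 : (C.comp (fz 1)).comp botm = (C.comp (fy 0)).comp topm := rfl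
  have c4 : (C.comp (fz 1)).comp topm = (C.comp (fy 1)).comp topm := rfl
  simp only [dC, bd, a1, a2, a3, a4, b1, b2, b3, b4, c1, c2, c3, c4]
  abel

section

variable {K N : Set R4} {ρ : R4 → R4}

/-- a map avoiding `K` -/
noncomputable def res {Y : Type} [TopologicalSpace Y] (T : C(Y, R4)) (h : ∀ z, T z ∉ K) : C(Y, Off K) :=
  ⟨fun z => ⟨T z, h z⟩, T.continuous.subtype_mk _⟩

/-- the composition with `ρ` -/
noncomputable def rh (hρ : ContinuousOn ρ N) (hρK : ∀ x ∈ N, ρ x ∉ K) {Y : Type} [TopologicalSpace Y]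
    (T : C(Y, R4)) (h : ∀ z, T z ∈ N) : C(Y, Off K) :=
  ⟨fun z => ⟨ρ (T z), hρK _ (h z)⟩, (hρ.comp_continuous T.continuous h).subtype_mk _⟩

/-- forget that a map avoids `K` -/
noncomputable def down {Y : Type} [TopologicalSpace Y] (T : C(Y, Off K)) : C(Y, R4) :=
  ⟨fun z => (T z : R4), by fun_prop⟩

open Classical in
/-- the modified edge function -/
noncomputable def um {V : Type} [AddCommGroup V] (N : Set R4) (u : C(I, Off K) → V)
    (e : C(I, Off K)) : V :=
  if ∀ t, (e t : R4) ∈ N then u e else 0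

open Classical in
/-- the modified cocycle -/
noncomputable def gg (hρ : ContinuousOn ρ N) (hρK : ∀ x ∈ N, ρ x ∉ K) {V : Type} [AddCommGroup V]
    (a : C(I × I, Off K) → V) (u : C(I, Off K) → V) (T : C(I × I, R4)) : V :=
  if h : ∀ z, T z ∉ K then a (res T h) - bd (um N u) (res T h)
  else if h' : ∀ z, T z ∈ N then a (rh hρ hρK T h') else 0

variable (hρ : ContinuousOn ρ N) (hρK : ∀ x ∈ N, ρ x ∉ K) {V : Type} [AddCommGroup V]
  {a : C(I × I, Off K) → V} {u : C(I, Off K) → V}

theorem gg_K (T : C(I × I, R4)) (h : ∀ z, T z ∉ K) :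
    gg hρ hρK a u T = a (res T h) - bd (um N u) (res T h) := by
  rw [gg, dif_pos h]

theorem gg_N (hu : ∀ S S' : C(I × I, Off K), (∀ z, (S z : R4) ∈ N) →
    (∀ z, (S' z : R4) = ρ (S z)) →
    a S - a S' = u (S.comp botm) + u (S.comp rigm) - u (S.comp lefm) - u (S.comp topm))
    (T : C(I × I, R4)) (h : ∀ z, T z ∈ N) :
    gg hρ hρK a u T = a (rh hρ hρK T h) := by
  by_cases hk : ∀ z, T z ∉ K
  · rw [gg_K hρ hρK T hk]
    have h1 := hu (res T hk) (rh hρ hρK T h) h (fun z => rfl)
    have e : ∀ m : C(I, I × I), um N u ((res T hk).comp m) = u ((res T hk).comp m) := by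
      intro m
      rw [um, if_pos]
      exact fun t => h (m t)
    rw [bd, e, e, e, e, ← h1]
    abel
  · rw [gg, dif_neg hk, dif_pos h]

theorem dC_gg {v : C(I, Off K) → V} (hc : IsCoc (Off K) V a v)
    (hu : ∀ S S' : C(I × I, Off K), (∀ z, (S z : R4) ∈ N) →
    (∀ z, (S' z : R4) = ρ (S z)) →
    a S - a S' = u (S.comp botm) + u (S.comp rigm) - u (S.comp lefm) - u (S.comp topm))
    (C : C(I × (I × I), R4)) (hC : (∀ z, C z ∉ K) ∨ ∀ z, C z ∈ N) :
    dC (gg hρ hρK a u) C = 0 := by
  rcases hC with hC | hC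
  · have e : ∀ m : C(I × I, I × (I × I)), gg hρ hρK a u (C.comp m) =
        a ((res C hC).comp m) - bd (um N u) ((res C hC).comp m) := fun m =>
      gg_K hρ hρK (C.comp m) (fun z => hC (m z))
    have h1 := hc.cube (res C hC)
    have h2 := dC_bd (um N u) (res C hC)
    rw [dC] at h2 ⊢
    rw [e, e, e, e, e, e]
    rw [← sub_eq_zero.2 (h1.trans h2.symm)]
    abel
  · have e : ∀ m : C(I × I, I × (I × I)), gg hρ hρK a u (C.comp m) =
        a ((rh hρ hρK C hC).comp m) := fun m =>
      gg_N hρ hρK hu (C.comp m) (fun z => hC (m z))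
    rw [dC, e, e, e, e, e, e]
    exact hc.cube (rh hρ hρK C hC)

theorem sum_gg (k : ℕ) (T : C(I × I, Off K)) :
    sumS (gg hρ hρK a u) k (down T) = sumS a k T - sumS (bd (um N u)) k T := by
  induction k generalizing T with
  | zero =>
    exact gg_K hρ hρK (down T) (fun z => (T z).2)
  | succ k ih =>
    have h1 := ih (lowT (lowS T))
    have h2 := ih (upT (lowS T))
    have h3 := ih (lowT (upS T))
    have h4 := ih (upT (upS T))
    have e : sumS (gg hρ hρK a u) (k + 1) (down T) =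
      sumS (gg hρ hρK a u) k (down (lowT (lowS T))) +
      sumS (gg hρ hρK a u) k (down (upT (lowS T))) +
      sumS (gg hρ hρK a u) k (down (lowT (upS T))) +
      sumS (gg hρ hρK a u) k (down (upT (upS T))) := rfl
    rw [e, h1, h2, h3, h4]
    simp only [sumS]
    abel

end

end MVFaux

open MVFaux in
theorem m_MVF (hGRD : StGRD) : StMVF := by
  obtain ⟨g1, g2, g3, g4⟩ := hGRD
  intro K N ρ hK hN hKN hρ hρK V _ a v hc hU S y hS
  obtain ⟨u, hu⟩ := hU
  -- the cube
  let C : C(I × (I × I), R4) :=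
    ⟨fun p => (1 - (p.2.2 : ℝ)) • (S (p.1, p.2.1) : R4) + (p.2.2 : ℝ) • (y : R4), by fun_prop⟩
  obtain ⟨k, hk⟩ := g4 K N hK hN hKN C
  have h1 := g1 R4 V (gg hρ hρK a u) _ (dC_gg hρ hρK hc hu) k C hk
  have fx0 : C.comp (fx 0) = down (ContinuousMap.const (I × I) y) := by
    ext1 z
    change (1 - (z.2 : ℝ)) • (S (0, z.1) : R4) + (z.2 : ℝ) • (y : R4) = (y : R4)
    rw [hS 0 z.1 (Or.inl rfl), ← add_smul]
    simp
  have fx1 : C.comp (fx 1) = down (ContinuousMap.const (I × I) y) := by
    ext1 z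
    change (1 - (z.2 : ℝ)) • (S (1, z.1) : R4) + (z.2 : ℝ) • (y : R4) = (y : R4)
    rw [hS 1 z.1 (Or.inr (Or.inl rfl)), ← add_smul]
    simp
  have fy0 : C.comp (fy 0) = down (ContinuousMap.const (I × I) y) := by
    ext1 z
    change (1 - (z.2 : ℝ)) • (S (z.1, 0) : R4) + (z.2 : ℝ) • (y : R4) = (y : R4)
    rw [hS z.1 0 (Or.inr (Or.inr (Or.inl rfl))), ← add_smul]
    simp
  have fy1 : C.comp (fy 1) = down (ContinuousMap.const (I × I) y) := by
    ext1 z
    change (1 - (z.2 : ℝ)) • (S (z.1, 1) : R4) + (z.2 : ℝ) • (y : R4) = (y : R4)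
    rw [hS z.1 1 (Or.inr (Or.inr (Or.inr rfl))), ← add_smul]
    simp
  have fz1 : C.comp (fz 1) = down (ContinuousMap.const (I × I) y) := by
    ext1 z
    change (1 - ((1 : I) : ℝ)) • (S (z.1, z.2) : R4) + ((1 : I) : ℝ) • (y : R4) = (y : R4)
    simp
  have fz0 : C.comp (fz 0) = down S := by
    ext1 z
    change (1 - ((0 : I) : ℝ)) • (S (z.1, z.2) : R4) + ((0 : I) : ℝ) • (y : R4) = (S z : R4)
    simp
  rw [dC, fx0, fx1, fy0, fy1, fz0, fz1, sub_self, zero_add,
    sub_eq_zero, sum_gg, sum_gg] at h1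
  -- the sides
  have sb : S.comp botm = ContinuousMap.const I y := by
    ext1 x; exact hS x 0 (Or.inr (Or.inr (Or.inl rfl)))
  have st : S.comp topm = ContinuousMap.const I y := by
    ext1 x; exact hS x 1 (Or.inr (Or.inr (Or.inr rfl)))
  have sl : S.comp lefm = ContinuousMap.const I y := by
    ext1 x; exact hS 0 x (Or.inl rfl)
  have sr : S.comp rigm = ContinuousMap.const I y := by
    ext1 x; exact hS 1 x (Or.inr (Or.inl rfl))
  have tb : (ContinuousMap.const (I × I) y).comp botm = ContinuousMap.const I y := rfl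
  have tt : (ContinuousMap.const (I × I) y).comp topm = ContinuousMap.const I y := rfl
  have tl : (ContinuousMap.const (I × I) y).comp lefm = ContinuousMap.const I y := rfl
  have tr : (ContinuousMap.const (I × I) y).comp rigm = ContinuousMap.const I y := rfl
  have z1 : sumS (bd (um N u)) k S = 0 := by
    have h := g3 (Off K) V (um N u) k S
    rw [sb, st, sl, sr] at h
    exact h.trans (by abel)
  have z2 : sumS (bd (um N u)) k (ContinuousMap.const (I × I) y) = 0 := by
    have h := g3 (Off K) V (um N u) k (ContinuousMap.const (I × I) y)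
    rw [tb, tt, tl, tr] at h
    exact h.trans (by abel)
  rw [z1, z2, sub_zero, sub_zero] at h1
  have w1 := g2 (Off K) V a v hc k S
  have w2 := g2 (Off K) V a v hc k (ContinuousMap.const (I × I) y)
  rw [sb, st, sl, sr, ← h1] at w1
  rw [tb, tt, tl, tr] at w2
  exact w1.trans w2.symm

end Pool.Agent.Helper70.HH
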