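import Pool.Agent.Helper70.BI.HH.StHE

/-!
# Project BI, stage 7 (H), module GHA: a 3-cocycle and the third homology group of a group
-/

set_option autoImplicit false

open CategoryTheory

namespace Pool.Agent.Helper70.HH

namespace GHAaux

/-- extension of a linear map along a linear map with smaller kernel, values in a divisible group -/
theorem extend_char {C D : Type} [AddCommGroup C] [AddCommGroup D]
    (δ : C →ₗ[ℤ] D) (φ : C →ₗ[ℤ] AddCircle (1 : ℚ)) (h : ∀ x, δ x = 0 → φ x = 0) :
    ∃ β : D →+ AddCircle (1 : ℚ), ∀ x, β (δ x) = φ x := by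
  have hk : LinearMap.ker δ ≤ LinearMap.ker φ := fun x hx => by
    rw [LinearMap.mem_ker] at hx ⊢
    exact h x hx
  have hinj : Function.Injective ((LinearMap.ker δ).liftQ δ le_rfl) := by
    rw [← LinearMap.ker_eq_bot]
    exact Submodule.ker_liftQ_eq_bot _ _ _ le_rfl
  obtain ⟨β, hβ⟩ := CharacterModule.dual_surjective_of_injective
    ((LinearMap.ker δ).liftQ δ le_rfl) hinj
    (((LinearMap.ker δ).liftQ φ hk).toAddMonoidHom : CharacterModule (C ⧸ LinearMap.ker δ))
  refine ⟨β, fun x => ?_⟩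
  have := DFunLike.congr_fun hβ ((LinearMap.ker δ).mkQ x)
  exact this

theorem contr3 {G : Type} [Group G] (g h k : G) :
    Fin.contractNth 0 (· * ·) ![g, h, k] = ![g * h, k] ∧
    Fin.contractNth 1 (· * ·) ![g, h, k] = ![g, h * k] ∧
    Fin.contractNth 2 (· * ·) ![g, h, k] = ![g, h] := by
  refine ⟨?_, ?_, ?_⟩ <;> ext i <;> fin_cases i <;> rfl

theorem contr4 {G : Type} [Group G] (g h k l : G) :
    Fin.contractNth 0 (· * ·) ![g, h, k, l] = ![g * h, k, l] ∧
    Fin.contractNth 1 (· * ·) ![g, h, k, l] = ![g, h * k, l] ∧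
    Fin.contractNth 2 (· * ·) ![g, h, k, l] = ![g, h, k * l] ∧
    Fin.contractNth 3 (· * ·) ![g, h, k, l] = ![g, h, k] := by
  refine ⟨?_, ?_, ?_, ?_⟩ <;> ext i <;> fin_cases i <;> rfl

theorem tail3 {G : Type} (g h k : G) : (fun i : Fin 2 => ![g, h, k] i.succ) = ![h, k] := by
  ext i; fin_cases i <;> rfl

theorem tail4 {G : Type} (g h k l : G) :
    (fun i : Fin 3 => ![g, h, k, l] i.succ) = ![h, k, l] := by
  ext i; fin_cases i <;> rfl

/-- the differential from the 3-chains to the 2-chains -/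
theorem d2_single {G : Type} [Group G] (g h k : G) :
    (groupHomology.inhomogeneousChains.d (Rep.trivial ℤ G ℤ) 2)
        (Finsupp.single ![g, h, k] (1 : ℤ)) =
      (Finsupp.single ![h, k] (1 : ℤ) - Finsupp.single ![g * h, k] 1
        + Finsupp.single ![g, h * k] 1 - Finsupp.single ![g, h] 1 : (Fin 2 → G) →₀ ℤ) := by
  obtain ⟨h0, h1, h2⟩ := contr3 g h k
  rw [groupHomology.inhomogeneousChains.d_single, Fin.sum_univ_three, h0, h1, h2, tail3]
  simp
  abel

/-- the differential from the 4-chains to the 3-chains -/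
theorem d3_single {G : Type} [Group G] (g h k l : G) :
    (groupHomology.inhomogeneousChains.d (Rep.trivial ℤ G ℤ) 3)
        (Finsupp.single ![g, h, k, l] (1 : ℤ)) =
      (Finsupp.single ![h, k, l] (1 : ℤ) - Finsupp.single ![g * h, k, l] 1
        + Finsupp.single ![g, h * k, l] 1 - Finsupp.single ![g, h, k * l] 1
        + Finsupp.single ![g, h, k] 1 : (Fin 3 → G) →₀ ℤ) := by
  obtain ⟨h0, h1, h2, h3⟩ := contr4 g h k l
  rw [groupHomology.inhomogeneousChains.d_single, Fin.sum_univ_four, h0, h1, h2, h3, tail4]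
  simp
  abel

section

variable {G : Type} [Group G] {M : Type} [AddCommGroup M] (F : G → G → G → M)

/-- the value of a function of three variables on the 3-chains -/
noncomputable def KL : ((Fin 3 → G) →₀ ℤ) →ₗ[ℤ] M :=
  Finsupp.linearCombination ℤ (fun x => F (x 0) (x 1) (x 2))

omit [Group G] in
theorem KL_single (g h k : G) : KL F (Finsupp.single ![g, h, k] 1) = F g h k := by
  simp [KL, Finsupp.linearCombination_single]

/-- the same as a morphism -/
noncomputable def KM :
    (groupHomology.inhomogeneousChains (Rep.trivial ℤ G ℤ)).X 3 ⟶ ModuleCat.of ℤ M :=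
  ModuleCat.ofHom (KL F)

theorem KM_zero
    (hF : ∀ g h k l : G, F h k l - F (g * h) k l + F g (h * k) l - F g h (k * l) + F g h k = 0) :
    (groupHomology.inhomogeneousChains (Rep.trivial ℤ G ℤ)).d 4 3 ≫ KM F = 0 := by
  rw [groupHomology.inhomogeneousChains.d_def]
  refine ModuleCat.hom_ext (Finsupp.lhom_ext' fun x => LinearMap.ext_ring ?_)
  obtain ⟨g, h, k, l, rfl⟩ : ∃ g h k l : G, x = ![g, h, k, l] :=
    ⟨x 0, x 1, x 2, x 3, by ext i; fin_cases i <;> rfl⟩
  change KL F ((groupHomology.inhomogeneousChains.d (Rep.trivial ℤ G ℤ) 3)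
    (Finsupp.single ![g, h, k, l] (1 : ℤ))) = 0
  rw [d3_single, map_add, map_sub, map_add, map_sub, KL_single, KL_single, KL_single, KL_single,
    KL_single]
  exact hF g h k l

/-- the homomorphism from the third homology group -/
noncomputable def TH
    (hF : ∀ g h k l : G, F h k l - F (g * h) k l + F g (h * k) l - F g h (k * l) + F g h k = 0) :
    H3 G ⟶ ModuleCat.of ℤ M :=
  (groupHomology.inhomogeneousChains (Rep.trivial ℤ G ℤ)).homologyι 3 ≫
    (groupHomology.inhomogeneousChains (Rep.trivial ℤ G ℤ)).descOpcycles (KM F) 4 (by simp)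
      (KM_zero F hF)

theorem TH_pi
    (hF : ∀ g h k l : G, F h k l - F (g * h) k l + F g (h * k) l - F g h (k * l) + F g h k = 0) :
    groupHomology.π (Rep.trivial ℤ G ℤ) 3 ≫ TH F hF =
      groupHomology.iCycles (Rep.trivial ℤ G ℤ) 3 ≫ KM F := by
  rw [TH]
  erw [HomologicalComplex.homology_π_ι_assoc]
  rw [HomologicalComplex.p_descOpcycles]

/-- a cycle is mapped to the value of `KL` -/
theorem TH_cycle
    (hF : ∀ g h k l : G, F h k l - F (g * h) k l + F g (h * k) l - F g h (k * l) + F g h k = 0)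
    (f : (Fin 3 → G) →₀ ℤ)
    (hf : (groupHomology.inhomogeneousChains.d (Rep.trivial ℤ G ℤ) 2) f = 0) :
    ∃ z : H3 G, (TH F hF) z = KL F f := by
  have hf' : (groupHomology.inhomogeneousChains (Rep.trivial ℤ G ℤ)).d 3 2 f = 0 := by
    rw [groupHomology.inhomogeneousChains.d_def]
    exact hf
  refine ⟨groupHomology.π (Rep.trivial ℤ G ℤ) 3
    (groupHomology.cyclesMk (A := Rep.trivial ℤ G ℤ) 3 2 (by simp) f hf'), ?_⟩
  have h1 := ConcreteCategory.congr_hom (TH_pi F hF)
    (groupHomology.cyclesMk (A := Rep.trivial ℤ G ℤ) 3 2 (by simp) f hf')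
  rw [ConcreteCategory.comp_apply, ConcreteCategory.comp_apply] at h1
  rw [h1]
  erw [groupHomology.iCycles_mk]
  rfl

end

end GHAaux

open GHAaux in
theorem m_GHA : StGHA := by
  intro G _ M _ F hF hχ
  refine ⟨(TH F hF).hom.toAddMonoidHom, ?_⟩
  change Function.Surjective (TH F hF).hom
  refine CharacterModule.surjective_of_dual_injective (TH F hF).hom ?_
  rw [injective_iff_map_eq_zero]
  intro χ h0
  have hker : ∀ f : (Fin 3 → G) →₀ ℤ,
      (groupHomology.inhomogeneousChains.d (Rep.trivial ℤ G ℤ) 2).hom f = 0 →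
      (AddMonoidHom.toIntLinearMap (AddMonoidHom.comp χ (KL F).toAddMonoidHom)) f = 0 := by
    intro f hf
    obtain ⟨z, hz⟩ := TH_cycle F hF f hf
    have h2 := DFunLike.congr_fun h0 z
    change χ (KL F f) = 0
    rw [← hz]
    exact h2
  obtain ⟨β, hβ⟩ := extend_char (groupHomology.inhomogeneousChains.d (Rep.trivial ℤ G ℤ) 2).hom
    (AddMonoidHom.toIntLinearMap (AddMonoidHom.comp χ (KL F).toAddMonoidHom)) hker
  refine hχ χ (fun g h => β (Finsupp.single ![g, h] (1 : ℤ))) fun g h k => ?_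
  have h3 := hβ (Finsupp.single ![g, h, k] (1 : ℤ))
  have h4 : (AddMonoidHom.toIntLinearMap (AddMonoidHom.comp χ (KL F).toAddMonoidHom))
      (Finsupp.single ![g, h, k] (1 : ℤ)) = χ (F g h k) := by
    change χ (KL F _) = _
    rw [KL_single]
  rw [h4] at h3
  refine Eq.trans h3.symm ?_
  change β ((groupHomology.inhomogeneousChains.d (Rep.trivial ℤ G ℤ) 2)
    (Finsupp.single ![g, h, k] (1 : ℤ))) = _
  rw [d2_single]
  erw [map_sub, map_add, map_sub]

end Pool.Agent.Helper70.HH
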